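import Mathlib
import Pool.Agent.W_MP_6d1f6b_co.Final

set_option autoImplicit false

open Finset

namespace Pool.Agent.Results.MP_6d1f6b_co.GapUnbounded

/-- The unitary Cayley graph `X_n` on `ℤ/nℤ`: distinct `x`, `y` are adjacent when `x - y` is a
unit of `ℤ/nℤ` (for `n > 1` the condition `x ≠ y` is implied). -/
def unitaryCayley (n : ℕ) : SimpleGraph (ZMod n) where
  Adj x y := x ≠ y ∧ IsUnit (x - y)
  symm := ⟨fun x y h => ⟨h.1.symm, by rw [← neg_sub]; exact h.2.neg⟩⟩
  loopless := ⟨fun _ h => h.1 rfl⟩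

/-- The domination number `γ(G)`. -/
noncomputable def dominationNumber {V : Type*} (G : SimpleGraph V) : ℕ :=
  sInf {k | ∃ D : Finset V, D.card = k ∧ ∀ v, ∃ u ∈ D, u = v ∨ G.Adj u v}

/-- The total domination number `γ_t(G)`. -/
noncomputable def totalDominationNumber {V : Type*} (G : SimpleGraph V) : ℕ :=
  sInf {k | ∃ D : Finset V, D.card = k ∧ ∀ v, ∃ u ∈ D, G.Adj u v}

/-- Jacobsthal's function `g(n)`: the least positive `m` such that among any `m` consecutive
integers `a, a + 1, …, a + m - 1` at least one is coprime to `n`. -/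
noncomputable def jacobsthal (n : ℕ) : ℕ :=
  sInf {m | 0 < m ∧ ∀ a : ℤ, ∃ i : ℕ, i < m ∧ IsCoprime (a + i) (n : ℤ)}

/-- The gap `g(n) - γ_t(X_n)`, and so also `g(n) - γ(X_n)`, is unbounded, and this already on
integers with arbitrarily many prime factors. -/
theorem result (k M : ℕ) : ∃ n : ℕ, 1 < n ∧ k ≤ n.primeFactors.card ∧
    dominationNumber (unitaryCayley n) + M ≤ jacobsthal n ∧
    totalDominationNumber (unitaryCayley n) + M ≤ jacobsthal n := by
  obtain ⟨P, hP0, hP1, hP4, hgood, hU, hω⟩ :=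
    Pool.Agent.W_MP_6d1f6b_co.exists_P (2 * max k M + 1)
  set m : ℕ := 2 * max k M + 1 with hm
  have hmodd : ¬ Even m := by rw [Nat.not_even_iff_odd]; exact ⟨max k M, hm⟩
  rw [if_neg hmodd] at hP4
  obtain ⟨K, hK⟩ : ∃ K, P = 4 * K + 1 := ⟨P / 4, by omega⟩
  -- the totient is even, positive
  have hmid := Pool.Agent.W_MP_6d1f6b_co.card_middle hP1 hK
  have hpow : ((-2 : ℤ)) ^ (m + 1) = 2 * 2 ^ m := by
    have : Even (m + 1) := by rw [Nat.even_add_one]; exact hmodd
    rw [this.neg_pow, pow_succ]; ring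
  rw [hpow] at hU
  have hU' : 4 * Pool.Agent.W_MP_6d1f6b_co.U P = Nat.totient P + 2 * 2 ^ m := by exact_mod_cast hU
  have h2m : M + 1 ≤ 2 ^ m := by
    have h1 : m < 2 ^ m := Nat.lt_two_pow_self
    have h2 : M ≤ max k M := le_max_right _ _
    omega
  -- the big primes
  set J : ℕ := Nat.totient P / 2 with hJ
  obtain ⟨Q, hQcard, hQ⟩ := Pool.Agent.W_MP_6d1f6b_co.exists_primes (J - 1) P
  have hφpos : 0 < Nat.totient P := Nat.totient_pos.2 (by omega)
  have hφ2 : 2 * J = Nat.totient P := by omega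
  have hJpos : 0 < J := by omega
  have hQprod : ∏ q ∈ Q, q ≠ 0 := by
    rw [Finset.prod_ne_zero_iff]
    intro q hq
    exact (hQ q hq).1.ne_zero
  set n : ℕ := P * ∏ q ∈ Q, q with hn
  have hex : ∃ D : Finset (ZMod n), 2 * D.card ≤ P + 1 ∧ ∀ v, ∃ u ∈ D, IsUnit (u - v) :=
    Pool.Agent.W_MP_6d1f6b_co.exists_total_dominating hgood Q hQ (by omega)
  obtain ⟨D, hD1, hD2⟩ := hex
  have hn0 : n ≠ 0 := mul_ne_zero (by omega) hQprod
  have hn1 : 1 < n := by
    have : 0 < ∏ q ∈ Q, q := Nat.pos_of_ne_zero hQprod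
    rw [hn]; nlinarith
  have hadj : ∀ v, ∃ u ∈ D, (unitaryCayley n).Adj u v := by
    intro v
    obtain ⟨u, hu, huv⟩ := hD2 v
    refine ⟨u, hu, ?_, huv⟩
    rintro rfl
    rw [sub_self] at huv
    have : Fact (1 < n) := ⟨hn1⟩
    exact not_isUnit_zero huv
  have hγt : totalDominationNumber (unitaryCayley n) ≤ D.card := Nat.sInf_le ⟨D, rfl, hadj⟩
  have hγ : dominationNumber (unitaryCayley n) ≤ D.card := by
    apply Nat.sInf_le
    refine ⟨D, rfl, ?_⟩
    intro v
    obtain ⟨u, hu, huv⟩ := hadj v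
    exact ⟨u, hu, Or.inr huv⟩
  -- the lower bound for Jacobsthal's function
  have hg : 2 * K + 2 ^ m ≤ jacobsthal n := by
    unfold jacobsthal
    apply le_csInf
    · refine ⟨n, by omega, ?_⟩
      intro a
      obtain ⟨i, hi1, hi2⟩ : ∃ i : ℕ, i < n ∧ (n : ℤ) ∣ (a + i) - 1 := by
        refine ⟨((1 - a) % (n : ℤ)).toNat, ?_, ?_⟩
        · have h1 := Int.emod_lt_of_pos (1 - a) (show (0 : ℤ) < n by omega)
          have h2 := Int.emod_nonneg (1 - a) (show (n : ℤ) ≠ 0 by omega)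
          omega
        · have h2 := Int.emod_nonneg (1 - a) (show (n : ℤ) ≠ 0 by omega)
          rw [Int.toNat_of_nonneg h2]
          have h3 := Int.mul_ediv_add_emod (1 - a) n
          refine ⟨-((1 - a) / n), ?_⟩
          linear_combination h3
      refine ⟨i, hi1, ?_⟩
      obtain ⟨c, hc⟩ := hi2
      exact ⟨1, -c, by linear_combination hc⟩
    · rintro L ⟨_, hL⟩
      by_contra hlt
      push Not at hlt
      have hB : #{i ∈ Ico (K + 1) (K + 1 + L) | P.Coprime i} ≤ Q.card := by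
        have h1 : Ico (K + 1) (K + 1 + L) ⊆ Ico (K + 1) (3 * K + 1) ∪
            Ico (3 * K + 1) (3 * K + 2 ^ m) := by
          intro i; simp only [mem_union, mem_Ico]; omega
        have h2 := Finset.card_le_card (Finset.filter_subset_filter (fun i => P.Coprime i) h1)
        rw [filter_union] at h2
        have h3 := Finset.card_union_le ({i ∈ Ico (K + 1) (3 * K + 1) | P.Coprime i})
          ({i ∈ Ico (3 * K + 1) (3 * K + 2 ^ m) | P.Coprime i})
        have h4 := Finset.card_filter_le (Ico (3 * K + 1) (3 * K + 2 ^ m)) (fun i => P.Coprime i)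
        rw [Nat.card_Ico] at h4
        omega
      obtain ⟨t, ht⟩ := Pool.Agent.W_MP_6d1f6b_co.block Q (by omega) hQ _ hB
      obtain ⟨i, hi, hc⟩ := hL ((t + (K + 1) : ℕ) : ℤ)
      apply ht (K + 1 + i) (by rw [mem_Ico]; omega)
      rw [← Nat.isCoprime_iff_coprime]
      have e : (((t + (K + 1) : ℕ) : ℤ) + (i : ℤ)) = ((t + (K + 1 + i) : ℕ) : ℤ) := by
        push_cast; ring
      rw [e] at hc
      exact hc
  refine ⟨n, hn1, ?_, by omega, by omega⟩
  have h1 : P.primeFactors ⊆ n.primeFactors :=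
    Nat.primeFactors_mono (Dvd.intro _ rfl) hn0
  have h2 := Finset.card_le_card h1
  have h3 : k ≤ max k M := le_max_left _ _
  omega

end Pool.Agent.Results.MP_6d1f6b_co.GapUnbounded
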